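import Pool.Agent.Q146.FAC.Main
import Pool.Agent.TH502.FA.N14.Area

/-!
# The filling area conjecture near the boundary and for complete surfaces

Let `M` be an oriented Riemannian surface, compact or not, whose boundary is the circle of length `2π`,
without shortcuts. Let `h` be a `1`-Lipschitz function on `M`, positive on the boundary, with
`h x + h y ≥ dist x y` for all points `x`, `y` of the boundary circle, for example
`h = π / 2 - dist (·, ∂M)`. Then the set `{h > 0}` alone, for example the set of the points at distance
less than `π / 2` from the boundary, has area at least `1.901 π`. More generally a number `A` is a lower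
bound for the areas of all compact fillings if and only if it is a lower bound for the areas of these
sets; for `A = 2π` Gromov's filling area conjecture is equivalent to its collar form for complete
surfaces.

Proof: the set `{h ≤ t}`, `t > 0` small, is collapsed to a point, with the metric
`min (dist p q) (h p - t + (h q - t))`, and the Riemannian metric is multiplied by a small factor on
`{h ≤ 0}`.
-/

set_option autoImplicit false

open Set MeasureTheory Metric

namespace Pool.Agent.Results.MP_ecf18f_gt.CompleteSurfaces

open Pool.Agent.H115R3.Filling Pool.Agent.Q146.FAC

/-- (1) A number `A` is a lower bound for the areas of all compact oriented surfaces which fill the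
circle of length `2π` without shortcuts if and only if it is a lower bound for the areas of the sets
`{h > 0}` in all oriented surfaces, compact or not, which do so, for all functions `h` as above.
(2) The area of the set `{h > 0}` is at least `1.901 π`.
(3) In a compact oriented surface which fills the circle of length `2π` without shortcuts the set of
the points at distance less than `π / 2` from the boundary has area at least `1.901 π`. -/
theorem result :
    (∀ A : ℝ,
      (∀ (M : Type) [MetricSpace M] (S : OrientedSurface M), S.NoShortcut → A ≤ S.area) ↔
      (∀ (M : Type) [MetricSpace M] (h : M → ℝ) (S : NearSurface M h), S.NoShortcut →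
        Height h S.boundary → A ≤ S.posArea)) ∧
    (∀ (M : Type) [MetricSpace M] (h : M → ℝ) (S : NearSurface M h), S.NoShortcut →
      Height h S.boundary → 1.901 * Real.pi ≤ S.posArea) ∧
    (∀ (M : Type) [MetricSpace M] (S : OrientedSurface M), S.NoShortcut →
      1.901 * Real.pi ≤ ∑ i, ∫ p in Sq ∩
        {p | infDist (S.chart i p) (range S.boundary) < Real.pi / 2},
        √((S.metric i).E p * (S.metric i).G p - (S.metric i).F p ^ 2)) := by
  have h0 : ∀ (M : Type) [MetricSpace M] (S : OrientedSurface M), S.NoShortcut →
      1.901 * Real.pi ≤ S.area := by
    intro M _ S hS
    have h := Pool.Agent.TH502.FA.N14.area_ge S hS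
    have hpi := Real.pi_gt_d6
    have hpos := Real.pi_pos
    nlinarith
  refine ⟨fun A => ⟨fun H M _ h S hS hh => reduceA H S hS hh, fun H M _ S hS => ?_⟩,
    fun M _ h S hS hh => reduceA h0 S hS hh, fun M _ S hS => ?_⟩
  · exact (H M (depth S.boundary) (ofOriented S _) hS (height_depth S.boundary)).trans
      (posArea_le S _)
  · have h1 := reduceA h0 (ofOriented S (depth S.boundary)) hS (height_depth S.boundary)
    refine h1.trans (le_of_eq ?_)
    unfold NearSurface.posArea
    refine Finset.sum_congr rfl fun i _ => ?_
    have e : {p | 0 < depth S.boundary (S.chart i p)} =
        {p | infDist (S.chart i p) (range S.boundary) < Real.pi / 2} := by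
      ext p
      change 0 < Real.pi / 2 - infDist (S.chart i p) (range S.boundary) ↔
        infDist (S.chart i p) (range S.boundary) < Real.pi / 2
      constructor <;> intro h3 <;> linarith
    change ∫ p in Sq ∩ {p | 0 < depth S.boundary (S.chart i p)}, _ = _
    rw [e]
    rfl

end Pool.Agent.Results.MP_ecf18f_gt.CompleteSurfaces
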