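import Pool.Agent.Q146.FAD.Main
import Pool.Agent.TH502.FA.N14.Area

/-!
# The filling area conjecture with finitely many conditions on the boundary distances

An oriented surface `M`, compact or not, is bounded by a closed curve of length `2π`, which may have
shortcuts in `M`; only the distances of finitely many points of the curve, for example of `N` equally
spaced points, are not shortened. Then the area of `M`, and even the area of the set `{h > 0}` as in
`CompleteSurfaces` (for example the set of the points at distance less than `π / 2` from the boundary)
is at least `1.901 π - 8 π² / N`, and `2 π - 8 π² / N` if Gromov's conjecture holds. So the conjecture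
is equivalent to statements on finitely many distances, with an explicit error.

Proof: a collar with the metric `min (d + |s - t|, s + t + dist)` on pairs of its points is attached to
`M`. Its width is half of the possible loss of distance; the boundary of the resulting surface is
isometric to the circle.
-/

set_option autoImplicit false

open Set MeasureTheory Metric

namespace Pool.Agent.Results.MP_ecf18f_gt.FiniteNets

open Pool.Agent.H115R3.Filling Pool.Agent.Q146.FAC Pool.Agent.Q146.FAD

theorem lower {M : Type} [MetricSpace M] (S : OrientedSurface M) (hS : S.NoShortcut) :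
    1.901 * Real.pi ≤ S.area := by
  have h := Pool.Agent.TH502.FA.N14.area_ge S hS
  have hpi := Real.pi_gt_d6
  have hpos := Real.pi_pos
  nlinarith

/-- (1) A number `A` is a lower bound for the areas of all compact oriented surfaces whose boundary is
isometric to the circle of length `2π` if and only if `A - 8 π δ` is a lower bound for the area of
`{h > 0}` for all oriented surfaces, compact or not, bounded by a closed curve of length `2π` on which
the distances of the points of a `δ`-dense set `P` are not shortened, for all functions `h` as in
`CompleteSurfaces`, with the last condition for the points of `P` only.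
(2) If the closed curve is only `K`-Lipschitz, `K ≥ 1`, then the area of `{h > 0}` is at least
`1.901 π - 4 π K (K + 1) δ`.
(3) If the distances of the points `2πi/N`, `i < N`, of the boundary curve of length `2π` of a compact
oriented surface are not shortened, then the set of the points at distance less than `π / 2` from the
boundary has area at least `1.901 π - 8 π² / N`. -/
theorem result :
    (∀ A : ℝ,
      (∀ (M : Type) [MetricSpace M] (S : OrientedSurface M),
        (∀ x y : AddCircle (2 * Real.pi), dist (S.boundary x) (S.boundary y) = dist x y) →
          A ≤ S.area) ↔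
      (∀ (M : Type) [MetricSpace M] (h : M → ℝ) (S : NearSurface M h)
        (P : Set (AddCircle (2 * Real.pi))) (δ : ℝ), Lp S.boundary 1 → Net P δ →
        LongOn P S.boundary → HeightOn P h S.boundary → A - 8 * Real.pi * δ ≤ S.posArea)) ∧
    (∀ (M : Type) [MetricSpace M] (h : M → ℝ) (S : NearSurface M h)
        (P : Set (AddCircle (2 * Real.pi))) (δ K : ℝ), Lp S.boundary K → Net P δ →
        LongOn P S.boundary → HeightOn P h S.boundary →
          1.901 * Real.pi - 4 * Real.pi * K * (K + 1) * δ ≤ S.posArea) ∧
    (∀ (M : Type) [MetricSpace M] (S : OrientedSurface M) (N : ℕ), 0 < N →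
      (∀ x y : AddCircle (2 * Real.pi), dist (S.boundary x) (S.boundary y) ≤ dist x y) →
      (∀ i < N, ∀ j < N, dist ((2 * Real.pi * i / N : ℝ) : AddCircle (2 * Real.pi))
          ((2 * Real.pi * j / N : ℝ) : AddCircle (2 * Real.pi)) ≤
        dist (S.boundary ((2 * Real.pi * i / N : ℝ) : AddCircle (2 * Real.pi)))
          (S.boundary ((2 * Real.pi * j / N : ℝ) : AddCircle (2 * Real.pi)))) →
      1.901 * Real.pi - 8 * Real.pi ^ 2 / N ≤ ∑ i, ∫ p in Sq ∩
        {p | infDist (S.chart i p) (range S.boundary) < Real.pi / 2},
        √((S.metric i).E p * (S.metric i).G p - (S.metric i).F p ^ 2)) := by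
  have h2 : ∀ (M : Type) [MetricSpace M] (h : M → ℝ) (S : NearSurface M h)
        (P : Set (AddCircle (2 * Real.pi))) (δ K : ℝ), Lp S.boundary K → Net P δ →
        LongOn P S.boundary → HeightOn P h S.boundary →
          1.901 * Real.pi - 4 * Real.pi * K * (K + 1) * δ ≤ S.posArea := by
    intro M _ h S P δ K hL hP h1 hh
    have hK : 0 < K := by linarith [hL.one]
    have h3 := reduceE (A := 1.901 * Real.pi) (K := K)
      (fun M _ S ε hL hε hS => almost (fun M _ S hS => lower S hS) S hL hε hS) S hL
      (by have := hP.nonneg; positivity) (long_net hP hL h1) (height_net hP hL hh)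
    linarith
  refine ⟨fun A => ⟨fun H M _ h S P δ hL hP h1 hh => ?_, fun H M _ S hS => ?_⟩, h2,
    fun M _ S N hN hL h1 => ?_⟩
  · have h3 := reduceE (A := A) (K := 1)
      (fun M _ S ε hL hε hS => almostI H S hL hε hS) S hL
      (by have := hP.nonneg; positivity) (long_net hP hL h1) (height_net hP hL hh)
    linarith
  · have hh := height_depth S.boundary
    have h3 := H M (depth S.boundary) (ofOriented S _) Set.univ 0
      ⟨le_rfl, fun x y => by rw [one_mul]; exact (hS x y).le⟩
      ⟨le_rfl, fun x => ⟨x, mem_univ x, (dist_self x).le⟩⟩
      (fun p _ q _ => (hS p q).ge) ⟨hh.lip, hh.pos, fun p _ q _ => hh.sum p q⟩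
    have h4 := posArea_le S (depth S.boundary)
    linarith
  · have hh := height_depth S.boundary
    have h3 := h2 M (depth S.boundary) (ofOriented S _) (pts N) (Real.pi / N) 1
      ⟨le_rfl, fun x y => by rw [one_mul]; exact hL x y⟩ (net_pts hN)
      (by
        rintro _ ⟨i, hi, rfl⟩ _ ⟨j, hj, rfl⟩
        exact h1 i hi j hj)
      ⟨hh.lip, hh.pos, fun p _ q _ => hh.sum p q⟩
    have e0 : 4 * Real.pi * 1 * (1 + 1) * (Real.pi / N) = 8 * Real.pi ^ 2 / N := by ring
    rw [e0] at h3
    refine h3.trans (le_of_eq ?_)
    unfold NearSurface.posArea
    refine Finset.sum_congr rfl fun i _ => ?_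
    have e : {p | 0 < depth S.boundary (S.chart i p)} =
        {p | infDist (S.chart i p) (range S.boundary) < Real.pi / 2} := by
      ext p
      change 0 < Real.pi / 2 - infDist (S.chart i p) (range S.boundary) ↔
        infDist (S.chart i p) (range S.boundary) < Real.pi / 2
      constructor <;> intro h3 <;> linarith
    change ∫ p in Sq ∩ {p | 0 < depth S.boundary (S.chart i p)}, _ = _
    rw [e]
    rfl

end Pool.Agent.Results.MP_ecf18f_gt.FiniteNets
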