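import Pool.Agent.Q146.FAF.Area

/-!
# Surfaces bounded by a circle whose shortcuts are restricted to long distances

Let `M` be an oriented Riemannian surface, compact or not, of any genus, bounded by a closed curve
`bd` on the circle of length `2π`, with `dist (bd x) (bd y) ≥ F (dist x y)` for a nondecreasing
subadditive function `F`, and let `a_k` be the Fourier coefficients of `F (dist x ·)`. Then the area of
`M` is at least `π ∑ k a_k²` (the energy of the harmonic extension of `F (dist x ·)` to the disc), and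
the same holds for the area of the part near the boundary. For `F (t) = t` this is the known bound
`14 ζ(3) / π`. For `F (t) = min (t, ρ)`: if only the distances up to `ρ` have no shortcuts, the collar of
width `ρ / 2` of the boundary has area at least `(4 / π) ∑ (1 - cos (k ρ))² / k³`.

Proof: the calibration of the starting result with all harmonics (the even ones vanish for `F (t) = t`),
and a collapse of the part of `M` far from the boundary.
-/

set_option autoImplicit false

open Set MeasureTheory Metric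

namespace Pool.Agent.Results.MP_ecf18f_gt.LocallyWithoutShortcuts

open Pool.Agent.H115R3.Filling Pool.Agent.Q146.FVC Pool.Agent.Q146.FAC Pool.Agent.Q146.FAF

/-- (1) The bound for a profile `F` and the part `{h > 0}` of a surface, compact or not.
(2) If `dist (bd x) (bd y) ≥ min (dist x y) ρ` in a compact oriented surface, the set of the points at
distance less than `ρ / 2` from the boundary has area at least
`(4 / π) ∑_{k ≥ 1} (1 - cos (k ρ))² / k³`. -/
theorem result :
    (∀ (F : ℝ → ℝ), Profile F → ∀ (M : Type) [MetricSpace M] (h : M → ℝ) (S : NearSurface M h),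
      LongF F S.boundary → HeightF F h S.boundary →
      Summable (fun k : ℕ => Real.pi * k * cf F k ^ 2) ∧
        ∑' k : ℕ, Real.pi * k * cf F k ^ 2 ≤ S.posArea) ∧
    (∀ (ρ : ℝ), 0 < ρ → ρ ≤ Real.pi → ∀ (M : Type) [MetricSpace M] (S : OrientedSurface M),
      (∀ x y : AddCircle (2 * Real.pi),
        min (dist x y) ρ ≤ dist (S.boundary x) (S.boundary y)) →
      Summable (fun k : ℕ => (1 - Real.cos (((k : ℝ) + 1) * ρ)) ^ 2 / ((k : ℝ) + 1) ^ 3) ∧
        4 / Real.pi * ∑' k : ℕ, (1 - Real.cos (((k : ℝ) + 1) * ρ)) ^ 2 / ((k : ℝ) + 1) ^ 3 ≤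
          ∑ i, ∫ p in Sq ∩ {p | infDist (S.chart i p) (range S.boundary) < ρ / 2},
            √((S.metric i).E p * (S.metric i).G p - (S.metric i).F p ^ 2)) := by
  refine ⟨fun F hF M _ h S hS hh => energyF hF S hS hh, fun ρ hρ hρ' M _ S hS => ?_⟩
  obtain ⟨h, hh⟩ : ∃ h : M → ℝ, h = fun q => ρ / 2 - infDist q (range S.boundary) := ⟨_, rfl⟩
  have hb : ∀ x, h (S.boundary x) = ρ / 2 := by
    intro x
    rw [hh]
    simp only
    rw [infDist_zero_of_mem (mem_range_self x), sub_zero]
  have hH : HeightF (fun t => min t ρ) h (ofOriented S h).boundary := by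
    refine ⟨?_, ⟨ρ / 2, by positivity, fun x => (hb x).ge⟩, fun x y => ?_⟩
    · refine LipschitzWith.of_dist_le_mul fun p q => ?_
      rw [NNReal.coe_one, one_mul, Real.dist_eq, hh]
      simp only
      rw [sub_sub_sub_cancel_left, ← Real.dist_eq, dist_comm p q]
      have h1 := (lipschitz_infDist_pt (range S.boundary)).dist_le_mul q p
      rwa [NNReal.coe_one, one_mul] at h1
    · change min (dist x y) ρ ≤ h (S.boundary x) + h (S.boundary y)
      rw [hb, hb]
      exact (min_le_right _ _).trans (by linarith)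
  obtain ⟨h1, h2⟩ := energyF (profile_min hρ.le) (ofOriented S h) hS hH
  have e : ∀ k : ℕ, Real.pi * ((k + 1 : ℕ) : ℝ) * cf (fun t => min t ρ) (k + 1) ^ 2 =
      4 / Real.pi * ((1 - Real.cos (((k : ℝ) + 1) * ρ)) ^ 2 / ((k : ℝ) + 1) ^ 3) := by
    intro k
    rw [cf_min hρ.le hρ' (Nat.succ_pos k)]
    have h3 : Real.pi ≠ 0 := Real.pi_ne_zero
    have h4 : (k : ℝ) + 1 ≠ 0 := by positivity
    push_cast
    field_simp
    ring
  have h3 : Summable fun k : ℕ => Real.pi * ((k + 1 : ℕ) : ℝ) *
      cf (fun t => min t ρ) (k + 1) ^ 2 := (summable_nat_add_iff 1).2 h1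
  simp_rw [e] at h3
  have h4 : Summable fun k : ℕ =>
      (1 - Real.cos (((k : ℝ) + 1) * ρ)) ^ 2 / ((k : ℝ) + 1) ^ 3 := by
    refine (summable_mul_left_iff (show 4 / Real.pi ≠ 0 by positivity)).1 h3
  refine ⟨h4, ?_⟩
  have h5 : ∑' k : ℕ, Real.pi * k * cf (fun t => min t ρ) k ^ 2 =
      4 / Real.pi * ∑' k : ℕ, (1 - Real.cos (((k : ℝ) + 1) * ρ)) ^ 2 / ((k : ℝ) + 1) ^ 3 := by
    rw [h1.tsum_eq_zero_add, ← tsum_mul_left]
    simp_rw [e]
    simp
  rw [← h5]
  refine h2.trans (le_of_eq ?_)
  unfold NearSurface.posArea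
  refine Finset.sum_congr rfl fun i _ => ?_
  have e2 : {p | 0 < h ((ofOriented S h).chart i p)} =
      {p | infDist (S.chart i p) (range S.boundary) < ρ / 2} := by
    ext p
    change 0 < h (S.chart i p) ↔ infDist (S.chart i p) (range S.boundary) < ρ / 2
    rw [hh]
    simp only
    constructor <;> intro h6 <;> linarith
  rw [e2]
  rfl

end Pool.Agent.Results.MP_ecf18f_gt.LocallyWithoutShortcuts
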