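import Pool.Agent.Q146.FAE.Main
import Pool.Agent.TH502.FA.N14.Area

/-!
# The filling area conjecture for surfaces with holes

A compact oriented surface `M` of any genus whose boundary consists of a circle of length `2π` without
shortcuts and of further closed curves of lengths `L_j` (holes, around which the surface may have any
shape) has area at least `1.901 π - (π / 16) ∑ L_j²`, and `2 π - (π / 16) ∑ L_j²` if Gromov's
conjecture holds. The outer curve may also be only approximately free of shortcuts, in the sense of
`FiniteNets`.

Proof: `M` is embedded in the space of the bounded functions on `M`; the closed curves extend to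
`1`-Lipschitz maps of flat discs of radius `L_j / 4` into this space, because a chord of a circle is at
least `2 / π` times the arc. The surface with these discs is an oriented surface without holes, with
the same distances of the points of the outer curve.
-/

set_option autoImplicit false

open Set MeasureTheory

namespace Pool.Agent.Results.MP_ecf18f_gt.SurfacesWithHoles

open Pool.Agent.H115R3.Filling Pool.Agent.Q146.FAD Pool.Agent.Q146.FAE

theorem lower {M : Type} [MetricSpace M] (S : OrientedSurface M) (hS : S.NoShortcut) :
    1.901 * Real.pi ≤ S.area := by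
  have h := Pool.Agent.TH502.FA.N14.area_ge S hS
  have hpi := Real.pi_gt_d6
  have hpos := Real.pi_pos
  nlinarith

/-- Surfaces with holes; the `j`-th hole is bounded by a closed curve which is parametrised by the
circle of length `2π` and is `l j`-Lipschitz (of length at most `L_j = 2 π l_j`; `π³ l_j² / 4` is
`π L_j² / 16`).
(1) A number `A` is a lower bound for the areas of all compact oriented surfaces without holes whose
boundary is isometric to the circle of length `2π` if and only if `A` is at most
`area + 8 π δ + ∑ π³ l_j² / 4` for all compact oriented surfaces with holes whose outer boundary curve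
has length `2π` and does not shorten the distances of the points of a `δ`-dense set `P`.
(2) If the outer boundary has no shortcuts then the area is at least `1.901 π - ∑ π³ l_j² / 4`.
(3) If it is `K`-Lipschitz and does not shorten the distances of the points of a `δ`-dense set then the
area is at least `1.901 π - 4 π K (K + 1) δ - ∑ π³ l_j² / 4`. -/
theorem result :
    (∀ A : ℝ,
      (∀ (M : Type) [MetricSpace M] (S : OrientedSurface M),
        (∀ x y : AddCircle (2 * Real.pi), dist (S.boundary x) (S.boundary y) = dist x y) →
          A ≤ S.area) ↔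
      (∀ (M : Type) [MetricSpace M] (S : HoledSurface M) (l : Fin S.holes → ℝ)
        (P : Set (AddCircle (2 * Real.pi))) (δ : ℝ), HoleBd S l → Lp S.boundary 1 → Net P δ →
        LongOn P S.boundary →
          A ≤ S.area + 8 * Real.pi * δ + ∑ j, Real.pi ^ 3 / 4 * l j ^ 2)) ∧
    (∀ (M : Type) [MetricSpace M] (S : HoledSurface M) (l : Fin S.holes → ℝ), HoleBd S l →
      (∀ x y : AddCircle (2 * Real.pi), dist x y ≤ dist (S.boundary x) (S.boundary y)) →
        1.901 * Real.pi ≤ S.area + ∑ j, Real.pi ^ 3 / 4 * l j ^ 2) ∧
    (∀ (M : Type) [MetricSpace M] (S : HoledSurface M) (l : Fin S.holes → ℝ)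
        (P : Set (AddCircle (2 * Real.pi))) (δ K : ℝ), HoleBd S l → Lp S.boundary K → Net P δ →
        LongOn P S.boundary →
          1.901 * Real.pi ≤ S.area + 4 * Real.pi * K * (K + 1) * δ +
            ∑ j, Real.pi ^ 3 / 4 * l j ^ 2) := by
  refine ⟨fun A => ⟨fun H M _ S l P δ h hL hP h1 => ?_, fun H M _ S hS => ?_⟩,
    fun M _ S l h hS => ?_, fun M _ S l P δ K h hL hP h1 => ?_⟩
  · have e : 2 * Real.pi * 1 * (2 * (1 + 1) * δ) = 8 * Real.pi * δ := by ring
    rw [← e]
    refine holes h fun M' _ S' hS' => ?_
    have hL' : Lp S'.boundary 1 := ⟨hL.one, fun x y => by rw [hS']; exact hL.lip x y⟩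
    refine almostI H S' hL' (by have := hP.nonneg; positivity) ?_
    exact long_net hP hL' fun p hp q hq => by rw [hS']; exact h1 p hp q hq
  · have h3 := H M (ofClosed S) (fun j => j.elim0) Set.univ 0 ⟨fun j => j.elim0, fun j => j.elim0⟩
      ⟨le_rfl, fun x y => by rw [one_mul]; exact (hS x y).le⟩
      ⟨le_rfl, fun x => ⟨x, mem_univ x, (dist_self x).le⟩⟩
      (fun p _ q _ => (hS p q).ge)
    have e : ∑ j : Fin (ofClosed S).holes, Real.pi ^ 3 / 4 *
        ((fun j : Fin (ofClosed S).holes => (j.elim0 : ℝ)) j) ^ 2 = 0 := Fin.sum_univ_zero _
    rw [e] at h3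
    have e2 : (ofClosed S).area = S.area := rfl
    rw [e2] at h3
    linarith
  · have h3 := holes (A := 1.901 * Real.pi) (c := 0) h fun M' _ S' hS' => by
      rw [add_zero]
      exact lower S' fun x y => by rw [hS']; exact hS x y
    rwa [add_zero] at h3
  · have hK : 0 < K := by linarith [hL.one]
    have e : 2 * Real.pi * K * (2 * (K + 1) * δ) = 4 * Real.pi * K * (K + 1) * δ := by ring
    rw [← e]
    refine holes h fun M' _ S' hS' => ?_
    have hL' : Lp S'.boundary K := ⟨hL.one, fun x y => by rw [hS']; exact hL.lip x y⟩
    refine almost (fun M _ S hS => lower S hS) S' hL' (by have := hP.nonneg; positivity) ?_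
    exact long_net hP hL' fun p hp q hq => by rw [hS']; exact h1 p hp q hq

end Pool.Agent.Results.MP_ecf18f_gt.SurfacesWithHoles
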